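import Mathlib
import Pool.Agent.Lib.MP_e1dd62_co.Basic
import Pool.Agent.Lib.MP_e1dd62_co.Exist

/-!
# The diameter graph of a maximiser is connected

If no pair between a set of the points and its complement is at distance exactly `2`, translating
this set by a small complex number `t` keeps the configuration admissible, and `Δ` is the modulus of
a polynomial in `t` with a local maximum at `t = 0`; so this polynomial is constant, although it
vanishes for some `t`.
-/

namespace Pool.Agent.Results.MP_e1dd62_co.DiameterGraph

open Pool.Agent.Lib.MP_e1dd62_co

/-- The diameter graph: two indices are adjacent when their points are at distance exactly `2`. -/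
def diamGraph {n : ℕ} (z : Fin n → ℂ) : SimpleGraph (Fin n) where
  Adj i j := ‖z i - z j‖ = 2
  symm := ⟨fun i j h => by rw [norm_sub_rev]; exact h⟩
  loopless := ⟨fun i h => by simp at h⟩

/-- For every `n ≥ 2` a maximiser exists; and for every maximiser the points are distinct, the
graph of the pairs at distance exactly `2` is connected, it has at least `n - 1` edges, and no point
lies in the convex hull of the others. -/
theorem result : ∀ n : ℕ, 2 ≤ n →
    (∃ z : Fin n → ℂ, IsMaximiser z) ∧
    ∀ z : Fin n → ℂ, IsMaximiser z →
      Function.Injective z ∧ (diamGraph z).Connected ∧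
      n - 1 ≤ (diamGraph z).edgeSet.ncard ∧
      ∀ i, z i ∉ convexHull ℝ (z '' {k | k ≠ i}) := by
  intro n hn
  refine ⟨exists_maximiser n, fun z hz => ?_⟩
  have hne : Nonempty (Fin n) := ⟨⟨0, by omega⟩⟩
  have hconn : (diamGraph z).Connected := by
    classical
    refine ⟨?_⟩
    intro a b
    by_contra hab
    let A : Finset (Fin n) := Finset.univ.filter fun i => (diamGraph z).Reachable a i
    obtain ⟨i, hi, j, hj, hij⟩ := hz.exists_diam A
      ⟨a, by simp only [A, Finset.mem_filter, Finset.mem_univ, true_and]; exact .refl a⟩
      ⟨b, by simpa only [A, Finset.mem_filter, Finset.mem_univ, true_and] using hab⟩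
    simp only [A, Finset.mem_filter, Finset.mem_univ, true_and] at hi hj
    have hadj : (diamGraph z).Adj i j := hij
    exact hj (hi.trans hadj.reachable)
  refine ⟨hz.injective, hconn, ?_, fun i => hz.notMem_convexHull hn i⟩
  have h := hconn.card_vert_le_card_edgeSet_add_one
  rw [Nat.card_eq_fintype_card, Fintype.card_fin, Nat.card_coe_set_eq] at h
  omega

end Pool.Agent.Results.MP_e1dd62_co.DiameterGraph
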