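import Mathlib
import Pool.Agent.Lib.MP_e1dd62_co.Basic
import Pool.Agent.Lib.MP_e1dd62_co.Evn.Main

/-!
# The maximum product of distances of `n` points of diameter at most `2`, `n` even

The maximum `M(n)` satisfies `M(n) / n ^ n → 3 ^ (9 / 4) / 8 * exp (π ^ 2 / 8 - √3 π / 4)` as `n`
tends to infinity through the even numbers.
-/

namespace Pool.Agent.Results.MP_e1dd62_co.EvenAsymptotic

open Pool.Agent.Lib.MP_e1dd62_co Real

/-- The maximum `M n` of `Δ` over the configurations of `n` points of diameter at most `2` exists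
for every `n`, and along the even numbers `n = 2 N` the quotient `M n / n ^ n` tends to
`3 ^ (9 / 4) / 8 * exp (π ^ 2 / 8 - √3 π / 4) = 1.30445…`. -/
theorem result : ∃ M : ℕ → ℝ,
    (∀ n : ℕ, IsGreatest {x : ℝ | ∃ z : Fin n → ℂ, Admissible z ∧ x = Delta z} (M n)) ∧
    Filter.Tendsto (fun N : ℕ => M (2 * N) / ((2 * N : ℕ) : ℝ) ^ (2 * N)) Filter.atTop
      (nhds (3 ^ ((9 : ℝ) / 4) / 8 * exp (π ^ 2 / 8 - √3 * π / 4))) := by
  have h : ∀ n : ℕ, ∃ x : ℝ,
      IsGreatest {x : ℝ | ∃ z : Fin n → ℂ, Admissible z ∧ x = Delta z} x := by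
    intro n
    obtain ⟨z, hz⟩ := exists_maximiser n
    refine ⟨Delta z, ⟨z, hz.1, rfl⟩, ?_⟩
    rintro x ⟨z', hz', rfl⟩
    exact hz.2 z' hz'
  choose M hM using h
  exact ⟨M, hM, Evn.main hM⟩

end Pool.Agent.Results.MP_e1dd62_co.EvenAsymptotic
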