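import Mathlib
import Pool.Agent.Lib.MP_e1dd62_co.Basic
import Pool.Agent.Lib.MP_e1dd62_co.Big.Main

/-!
# The maximum product of distances of `n` points of diameter at most `2`, `n` large

For all sufficiently large `n` the product is at most `n ^ n / cos(π / (2 n)) ^ (n (n - 1))`; for
odd `n` this is attained exactly by the vertex sets of regular `n`-gons of diameter `2`.
-/

namespace Pool.Agent.Results.MP_e1dd62_co.LargeN

open Pool.Agent.Lib.MP_e1dd62_co Real

/-- There is `n₀` such that for all `n ≥ n₀`: every configuration of `n` points of diameter at most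
`2` has `Δ ≤ n ^ n / cos(π / (2 n)) ^ (n (n - 1))`; if `n` is odd then this bound is the maximum
`M(n)`, and the maximisers are exactly the enumerations of the vertices of the regular `n`-gons of
circumradius `1 / cos(π / (2 n))` (that is, of diameter `2`); if `n` is even the inequality is
strict. -/
theorem result : ∃ n₀ : ℕ, ∀ n : ℕ, n₀ ≤ n →
    (∀ z : Fin n → ℂ, Admissible z →
      Delta z ≤ (n : ℝ) ^ n / cos (π / (2 * n)) ^ (n * (n - 1))) ∧
    (Odd n →
      IsGreatest {x : ℝ | ∃ z : Fin n → ℂ, Admissible z ∧ x = Delta z}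
        ((n : ℝ) ^ n / cos (π / (2 * n)) ^ (n * (n - 1))) ∧
      ∀ z : Fin n → ℂ, IsMaximiser z ↔ ∃ (σ : Equiv.Perm (Fin n)) (w c : ℂ),
        ‖c‖ = 1 / cos (π / (2 * n)) ∧
          ∀ k : Fin n, z (σ k) = w + c * Complex.exp (2 * π * Complex.I / n) ^ (k : ℕ)) ∧
    (Even n → ∀ z : Fin n → ℂ, Admissible z →
      Delta z < (n : ℝ) ^ n / cos (π / (2 * n)) ^ (n * (n - 1))) :=
  Big.main

end Pool.Agent.Results.MP_e1dd62_co.LargeN
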