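import Mathlib
import Pool.Agent.Lib.MP_e1dd62_co.Basic
import Pool.Agent.Lib.MP_e1dd62_co.Small

/-!
# The maximum product of distances of `5` and of `7` points of diameter at most `2`

At a maximiser the maximum principle forces convex position.  The long diagonals are at most `2`,
the product of the sides is bounded by Reinhardt's perimeter inequality, and (for `n = 7`) the
short diagonals are bounded by Ptolemy's inequality.
-/

namespace Pool.Agent.Results.MP_e1dd62_co.MFiveSeven

open Pool.Agent.Lib.MP_e1dd62_co Real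

/-- For `n = 5` and `n = 7` the maximum `M(n)` of `Δ` over the configurations of `n` points of
diameter at most `2` equals `n ^ n / cos(π / (2 n)) ^ (n (n - 1))`, and it is attained by the
vertices of the regular `n`-gon with circumradius `1 / cos(π / (2 n))`. -/
theorem result : ∀ n : ℕ, n = 5 ∨ n = 7 →
    IsGreatest {x : ℝ | ∃ z : Fin n → ℂ, Admissible z ∧ x = Delta z}
      ((n : ℝ) ^ n / cos (π / (2 * n)) ^ (n * (n - 1))) ∧
    IsMaximiser fun k : Fin n =>
      ((1 / cos (π / (2 * n)) : ℝ) : ℂ) * Complex.exp (2 * π * Complex.I / n) ^ (k : ℕ) := by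
  intro n hn
  have key : ∀ n : ℕ, Odd n → 2 ≤ n →
      (∀ z : Fin n → ℂ, Admissible z → Delta z ≤ Delta (fun i : Fin n => reg n i)) →
      Delta (fun i : Fin n => reg n i) = (n : ℝ) ^ n / cos (π / (2 * n)) ^ (n * (n - 1)) →
      IsGreatest {x : ℝ | ∃ z : Fin n → ℂ, Admissible z ∧ x = Delta z}
        ((n : ℝ) ^ n / cos (π / (2 * n)) ^ (n * (n - 1))) ∧
      IsMaximiser fun k : Fin n =>
        ((1 / cos (π / (2 * n)) : ℝ) : ℂ) * Complex.exp (2 * π * Complex.I / n) ^ (k : ℕ) := by
    intro n hodd h2 hle hval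
    refine ⟨⟨⟨_, reg_admissible hodd h2, hval.symm⟩, ?_⟩, reg_admissible hodd h2, hle⟩
    rintro x ⟨z, hz, rfl⟩
    rw [← hval]
    exact hle z hz
  rcases hn with rfl | rfl
  · exact key 5 (by decide) (by norm_num) Delta_le_five (reg_Delta (m := 4) (by norm_num))
  · exact key 7 (by decide) (by norm_num) Delta_le_seven (reg_Delta (m := 6) (by norm_num))

end Pool.Agent.Results.MP_e1dd62_co.MFiveSeven
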